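import Pool.Agent.W2helper25.MF.Ext

/-!
# Extensions whose kernel acts acylindrically on a tree

`C` is any class of groups with the closure properties `ClosedE C` which satisfies `AcylF C`: a finitely
generated group that acts on a tree without inversions, such that for some `k` and `n` the pointwise
stabilizers of the paths of length at least `k` have at most `n` elements, is in `C` if the vertex
stabilizers are in `C`. All this is known for the class of the groups that satisfy the Farrell–Jones
conjecture for `A`-theory with coefficients and finite wreath products (`AcylF` is a theorem of Knopf for
K- and L-theory; for A-theory see Bestvina, Fujiwara and Wigglesworth).

Let `G` act on a tree `T`, possibly with inversions, and let `N` be a normal subgroup of `G` with `G ⧸ N` in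
`C`. Suppose:

* the stabilizers `(N ⟨g⟩)_v`, for vertices `v` and `g` in `G`, are in `C`;
* `N` acts acylindrically: if `u` and `v` have distance at least `k`, then at most `n` elements of `N` fix
  `u` and `v`;
* (`HN`) if `c`, `c'` in `G` have infinite order modulo `N` and are commensurable modulo `N`, and there is an
  edge which is in the interior of the fixed subtrees of both, at depth `k` (`Inn`: the edge is on a path
  fixed by `c` and has distance at least `k` from both ends of the path; the path may be a different
  one for `c'`), then `c` and `c'` have a common nontrivial power.

Then `G` is in `C`.

The third condition holds for instance if the stabilizers of the edges in `N` are finite, because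
the stabilizers of the edges in `N ⟨g⟩` are then virtually cyclic. It holds for the trees of the canonical
decompositions of closed 3-manifold groups and of one-ended hyperbolic and toral relatively
hyperbolic groups, because one of the vertices of the edge (or, for graph manifolds, the combination
of both) leaves no room for two different elements: rigid vertex groups have finite outer automorphism
groups relative to the edge groups, and automorphisms of surface groups which fix two boundary
components (as subgroups) are not changed by twisting along one of them. The group `G` does not act
acylindrically on `T`, and in general it is not hyperbolic relative to subgroups which are simpler than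
`G`, for instance for graph manifold groups `N`.

Outline of the proof. By the extension criterion one can assume that `G ⧸ N` is infinite cyclic or
trivial. Call two edges at a vertex equivalent if they are equal or in the interior of the fixed subtree
of one element outside `N`; this is an equivalence relation by the third condition. The
equivalence classes which it generates on the set of edges (the cylinders) and the vertices of `T` are
the vertices of a new tree. An element outside `N` which fixes `u` and `v` fixes the path between them, and
all edges of this path except for the first and the last `k` ones are in one cylinder, so that the distance
of `u` and `v` in the new tree is at most `4 k + 2`. So the stabilizers of longer paths are contained in `N`,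
and have at most `n` elements. The stabilizer of a cylinder with more than one edge is a directed union
of subgroups of centralizers of elements `z` outside `N`, and the product of `⟨z⟩` and the centralizer of `z`
in `N` has finite index in the centralizer of `z`. The group `N` is in `C` because it acts acylindrically.
-/

set_option autoImplicit false

namespace Pool.Agent.Results.MP_63c928_gt.AcylindricalKernels

open Pool.Agent.Y110.FJ (ClosedE)
open Pool.Agent.N509.TX (AcylF)
open Pool.Agent.W2helper25.MF (Inn HN)

theorem result (C : ∀ (G : Type) [Group G], Prop) (hC : ClosedE C) (hA : AcylF C)
    {G V : Type} [Group G] [MulAction G V] (T : SimpleGraph V) (hT : T.IsTree)
    (hact : ∀ (g : G) (u v : V), T.Adj u v → T.Adj (g • u) (g • v))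
    (N : Subgroup G) [N.Normal] (hQ : C (G ⧸ N)) (k n : ℕ)
    (hacyl : ∀ u v, k ≤ T.dist u v → ∀ F : Finset G,
      (∀ g ∈ F, g ∈ N ∧ g • u = u ∧ g • v = v) → F.card ≤ n)
    (hpow : HN T N k)
    (hV : ∀ (v : V) (g : G), C ↥((N ⊔ Subgroup.zpowers g) ⊓ MulAction.stabilizer G v)) : C G :=
  Pool.Agent.W2helper25.MF.ext hC hA hT hact N hQ k n hacyl hpow hV

end Pool.Agent.Results.MP_63c928_gt.AcylindricalKernels
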