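import Pool.Agent.W2helper34.GR.Graded

/-!
# `2 × 2` matrices over noncommutative graded rings and the Farrell–Jones conjecture for `A`-theory

`C` is a class of groups with the closure properties `ClosedE C` which contains the solvable groups. By
published theorems the class of the groups which satisfy the Farrell–Jones conjecture for `A`-theory with
coefficients and finite wreath products is such a class (Enkelmann, Lück, Pieper, Ullmann and Winges; for
solvable groups Kasprowski, Ullmann, Wegner and Winges).

Theorem. Let `R = R_0 ⊕ R_1 ⊕ R_2 ⊕ …` be a graded ring, not necessarily commutative, which embeds in a
division ring. If `GL_2(R_0)` is in `C`, then `GL_2(R)` is in `C`.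

There is no finiteness condition, and `R` need not be an algebra over a field. For `R_0 = ℤ` the group
`GL_2(R_0)` is virtually free, hence in `C`. So the conjecture holds for the subgroups of `GL_2(R)` for
instance for the polynomial rings `R = ℤ[x_1, …, x_m]`, the free rings `R = ℤ⟨X⟩` (and `R = A⟨X⟩` for each
commutative domain `A` with `GL_2(A)` in `C`, `GR.free_main`), for all graded subrings of them, for the
monoid rings over `ℤ` of right-angled Artin monoids and positive braid monoids, for quantum affine spaces
over `ℤ[q]`, and for the enveloping rings of positively graded Lie rings which are free over `ℤ`.

Outline of the proof. Let `E` be a division ring which contains `R`. Sending `r = ∑ r_i` to `∑ r_i X ^ i`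
embeds `R` in the polynomial ring `T = E[X]` such that the constant coefficients are in `R_0`; this has
to be done because `R` itself need not be an Ore domain, and the degree function of `R` has no
extension to `E` in general. The degree of `T` is minus a discrete valuation of the division ring `E(X)`. So
`GL_2(R)` acts on the Bruhat–Tits tree of `GL_2(E(X))`, which is constructed here for division rings; in
general it is not locally finite, and the action is not cocompact. The elements of a vertex stabilizer
have bounded degree, so that the stabilizer has no kernel under the reduction of `GL_2(T)` modulo `X ^ k` for
large `k`. The image of `GL_2(R)` under this reduction is an extension of a subgroup of `GL_2(R_0)` by a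
nilpotent group, which is in `C` by the closure properties. The criterion `Pool.Agent.N24.TR.tree_local`
for groups acting on trees completes the proof.
-/

set_option autoImplicit false

namespace Pool.Agent.Results.MP_63c928_gt.GradedRings

open Pool.Agent.Y110.FJ (ClosedE)

theorem result (C : ∀ (G : Type) [Group G], Prop) (hC : ClosedE C)
    (hS : ∀ (G : Type) [Group G], Group.IsSolvable G → C G)
    {R σ : Type} [Ring R] [SetLike σ R] [AddSubgroupClass σ R] (𝒜 : ℕ → σ) [GradedRing 𝒜]
    {E : Type} [DivisionRing E] (ι : R →+* E) (hι : Function.Injective ι)
    (h0 : C (Matrix (Fin 2) (Fin 2) (𝒜 0))ˣ) : C (Matrix (Fin 2) (Fin 2) R)ˣ :=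
  Pool.Agent.W2helper34.GR.graded_main 𝒜 ι hC hS hι h0

end Pool.Agent.Results.MP_63c928_gt.GradedRings
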