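import Pool.Agent.W2helper25.AE.NilFin

/-!
# Kernels given by relations between the members of small families of generating subgroups

`C` is a class of groups with the closure properties of the class of the groups which satisfy the
A-theoretic Farrell-Jones conjecture with coefficients and finite wreath products.

Let `A` be a group, let `w i` be elements of the free product of the copies `A_0, A_1, A_2, ...` of `A`,
and let `R` be a set of pairs `(i, l)`, where `l` is a tuple of elements of a set `X`: a relational
structure on `X`. The group `NN w R` is the free product of copies `A_x`, `x ∈ X`, of `A` modulo the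
relators `w i (l)` for `(i, l) ∈ R`, where the letter `A_n` is replaced by `A_{l n}`. The relators are
supposed to be Brunnian: they become trivial when one of the members of the tuple is deleted. Then `NN w`
is functorial for embeddings of structures, and substructures give retracts.

**First part.** Let the groups `NN w (res R K)` be in `C` for all finite substructures `K` of `R` which
are irreducible: any two different elements of `K` occur together in a tuple of `R` contained in `K`. Let
`N` be a normal subgroup of `G` which is isomorphic to `NN w R`, and such that each element of `G` acts
on `N`, up to an inner automorphism of `N`, through an automorphism of the structure `R`. If `G ⧸ N` is in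
`C`, then `G` is in `C`. The set `X` may be infinite, and `G` may act on it with infinite orbits.

**Second part.** An unconditional case, the nilpotent graph products. Let `Λ` be a graph on `X`, let
`M x` be normal subgroups of `A` such that the vertex groups `A ⧸ M x` are in `C`, and let `k ≥ 1`. The
`k`-th nilpotent graph product is the quotient of the free product of the vertex groups by all left-normed
commutators `[a_0, a_1, ..., a_k]` of elements of vertex groups at vertices which are pairwise equal or
adjacent and of which the first two are different. For `k = 1` this is the graph product, and for complete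
graphs it is the `k`-th nilpotent product of Golovin. If a group `G` has a normal subgroup of this kind,
on which it acts through automorphisms of `Λ` up to inner automorphisms, with quotient in `C`, then `G` is
in `C`. (Any family of groups in `C` can be written as `A ⧸ M x`, with `A` its free product.)

Outline of the proof.

* *Extension of partial automorphisms.* For every partial automorphism `f` of a finite relational
  structure `S` there are a finite structure `T` which contains `S` as a substructure, and an automorphism
  of `T` which extends `f`, such that every irreducible substructure of `T` can be embedded in `S`.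
  This is a theorem of Herwig and Lascar, and Hodkinson and Otto. It is proved here (for an arbitrary
  signature, which may have infinitely many relations of unbounded arities) along the lines of Hubička,
  Konečný and Nešetřil.
* If `T` is finite and not irreducible, then `NN w T` is an amalgamated product of two groups of
  proper substructures, which are retracts. It has a homomorphism to a group in `C` which is injective on
  both factors, and so it is in `C`, by induction.
* The conjugation by an element of `G` on a finite subset of `N` is realized in the extension of
  `NN w T` by an automorphism of finite order, and the realization criterion applies.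
* For a complete graph, the kernel of the homomorphism of the `(k + 1)`-st to the `k`-th nilpotent
  product is central, and the first one is the direct product.
-/

set_option autoImplicit false

namespace Pool.Agent.Results.MP_63c928_gt.LocalRelators

open Pool.Agent.Y110.FJ (ClosedE)
open Pool.Agent.W2helper25.AE (NN Brun res cof nilRel)

/-- Any two different elements of `K` occur together in a tuple of the structure `R` contained in
`K`. -/
def Irreducible {ι X : Type} (R : Set (ι × List X)) (K : Set X) : Prop :=
  ∀ x ∈ K, ∀ y ∈ K, x ≠ y → ∃ i l, (i, l) ∈ R ∧ x ∈ l ∧ y ∈ l ∧ ∀ z ∈ l, z ∈ K

/-- Each element of `G` acts on `N = L`, up to an inner automorphism of `N`, by `a_x ↦ a_(τ x)` for a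
permutation `τ` with the property `P`. -/
def ActsBy {A X L G : Type} [Group A] [Group L] [Group G] {N : Subgroup G} (f : X → A →* L)
    (e : L ≃* N) (P : Equiv.Perm X → Prop) : Prop :=
  ∀ g : G, ∃ n ∈ N, ∃ τ : Equiv.Perm X, P τ ∧
    ∀ x a, (n * g) * (e (f x a) : G) * (n * g)⁻¹ = (e (f (τ x) a) : G)

/-- The `k`-th nilpotent graph product of the groups `A ⧸ M x`. -/
abbrev NilProduct {A X : Type} [Group A] (Λ : SimpleGraph X) (M : X → Subgroup A) (k : ℕ) : Type :=
  Monoid.CoprodI (fun _ : X => A) ⧸ Subgroup.normalClosure (nilRel Λ M k)

/-- The map of `A` to the vertex group at `x`. -/
def NilProduct.of {A X : Type} [Group A] (Λ : SimpleGraph X) (M : X → Subgroup A) (k : ℕ) (x : X) :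
    A →* NilProduct Λ M k :=
  (QuotientGroup.mk' _).comp (cof x)

theorem result (C : ∀ (G : Type) [Group G], Prop) (hC : ClosedE C) (G : Type) [Group G]
    (N : Subgroup G) [N.Normal] (hQ : C (G ⧸ N)) (A X : Type) [Group A] :
    (∀ (ι : Type) (w : ι → Monoid.CoprodI (fun _ : ℕ => A)) (R : Set (ι × List X)), Brun w R →
      (∀ K : Set X, K.Finite → Irreducible R K → C (NN w (res R K))) → ∀ e : NN w R ≃* N,
      ActsBy (NN.of w R) e (fun τ => ∀ i l, (i, l.map τ) ∈ R ↔ (i, l) ∈ R) → C G) ∧
    ∀ (Λ : SimpleGraph X) (M : X → Subgroup A) [∀ x, (M x).Normal], (∀ x, C (A ⧸ M x)) →
      ∀ k : ℕ, 1 ≤ k → ∀ e : NilProduct Λ M k ≃* N,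
      ActsBy (NilProduct.of Λ M k) e
        (fun τ => (∀ x y, Λ.Adj (τ x) (τ y) ↔ Λ.Adj x y) ∧ ∀ x, M (τ x) = M x) → C G := by
  refine ⟨fun _ _ _ hB hK e hact => Pool.Agent.W2helper25.AE.rel_fin hC hB hK N e hact hQ,
    fun Λ M _ hM k hk e hact =>
      Pool.Agent.W2helper25.AE.nil_fin hC Λ M hM k hk N e (fun g => ?_) hQ⟩
  obtain ⟨n, hn, τ, ⟨h1, h2⟩, h3⟩ := hact g
  exact ⟨n, hn, τ, h1, h2, h3⟩

end Pool.Agent.Results.MP_63c928_gt.LocalRelators
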