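import Pool.Agent.W2helper12.VA.VBn

/-!
# Virtual braid groups and the Farrell-Jones conjecture

`C` is a class of groups with the closure properties `ClosedE` of the class of the groups which satisfy
the Farrell-Jones conjecture (for A-theory, or for K- and L-theory) with coefficients and finite wreath
products. Suppose that `C` contains the Coxeter groups of finite rank and the Artin groups of the types
`A` and affine `A` (all these are known for the Farrell-Jones classes: Coxeter groups are CAT(0) groups,
and the Artin groups of the types `A` and affine `A` are subgroups of braid groups, thus of mapping class
groups). **Then all virtual braid groups are in `C`.**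

Outline of the proof.

* Let `X` be a finite set. The arcs are the ordered pairs `(i, j)` with `i ≠ j` in `X`. The Coxeter matrix
  `arcM X` on the set of the arcs has the label `3` for two arcs `(i, j), (j, k)` with `i ≠ k`, the label
  `2` for two arcs without common end, and all other labels are infinite. The virtual braid group `VB n` is
  embedded in the semidirect product of the Artin group of `arcM (Fin n)` by the symmetric group.
* A clique of `arcM X` (a set of arcs with finite labels) is a set of arcs such that every point is the
  source of at most one arc and the target of at most one arc, and it contains no two opposite arcs. Thus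
  the irreducible cliques are directed paths and directed cycles of length at least 3, of the types `A` and
  affine `A`.
* The reduction to irreducible cliques (`MP_2a0850_gt.ArtinCliques`) shows that the Artin group of `arcM X`
  is in `C`.
-/

set_option autoImplicit false

namespace Pool.Agent.Results.MP_63c928_gt.VirtualBraidGroups

open Pool.Agent.Y110.FJ (ClosedE)
open Pool.Agent.K7.H87.FJ6 (Sh)
open Pool.Agent.W2helper12.VA (affA VB_C)
open Pool.Agent.Helper718.VB (VB)

theorem result (C : ∀ (G : Type) [Group G], Prop) (hC : ClosedE C)
    (hW : ∀ (S : Type) [Finite S] (M : CoxeterMatrix S), C M.Group)
    (hA : ∀ n, C (Sh (CoxeterMatrix.A n) fun _ => 0))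
    (hA' : ∀ n, C (Sh (affA n) fun _ => 0)) (n : ℕ) : C (VB n) :=
  VB_C hC hW hA hA' n

end Pool.Agent.Results.MP_63c928_gt.VirtualBraidGroups
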